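import Mathlib
import Pool.Agent.Helper35.AG.Basic

/-!
# Component growth, piece F2: the invariant density and the marginal
-/

set_option autoImplicit false
open MeasureTheory Filter Topology Helper35.AG
open scoped ENNReal

namespace Helper26.CG

/-- the convolution of invariant measures is invariant -/
theorem mp_conv {n : ℕ} {μ ν : Measure Tor} [IsProbabilityMeasure μ] [IsProbabilityMeasure ν]
    (hμ : MeasurePreserving (fun x : Tor => n • x) μ μ)
    (hν : MeasurePreserving (fun x : Tor => n • x) ν ν) :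
    MeasurePreserving (fun x : Tor => n • x) (conv μ ν) (conv μ ν) := by
  have hm : Measurable fun p : Tor × Tor => p.1 + p.2 := by fun_prop
  refine ⟨hμ.measurable, ?_⟩
  rw [conv, Measure.map_map hμ.measurable hm]
  have h1 : ((fun x : Tor => n • x) ∘ fun p : Tor × Tor => p.1 + p.2) =
      (fun p : Tor × Tor => p.1 + p.2) ∘ Prod.map (fun x : Tor => n • x) (fun x : Tor => n • x) := by
    funext p
    simp [smul_add]
  rw [h1, ← Measure.map_map hm (hμ.prod hν).measurable, (hμ.prod hν).map_eq]

/-- a bounded density of an invariant measure with respect to an invariant measure is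
invariant -/
theorem inv_density {ρ lam : Measure Tor} [IsFiniteMeasure ρ] {T : Tor → Tor}
    (hT : MeasurePreserving T ρ ρ) (hl : MeasurePreserving T lam lam) {g : Tor → ℝ} {C : ℝ}
    (hg : Measurable g) (h0 : ∀ x, 0 ≤ g x) (hC : ∀ x, g x ≤ C)
    (hlam : lam = ρ.withDensity (fun x => ENNReal.ofReal (g x))) :
    ∀ᵐ x ∂ρ, g (T x) = g x := by
  have hint : ∀ h : Tor → ℝ, Measurable h → (∀ x, 0 ≤ h x) → (∀ x, h x ≤ C ^ 2) →
      Integrable h ρ := by
    intro h hm hh0 hh
    refine Integrable.of_bound hm.aestronglyMeasurable (C ^ 2) (Eventually.of_forall fun x => ?_)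
    rw [Real.norm_eq_abs, abs_of_nonneg (hh0 x)]
    exact hh x
  have hgT : Measurable fun x => g (T x) := hg.comp hT.measurable
  have hCC : ∀ a b : ℝ, 0 ≤ a → a ≤ C → 0 ≤ b → b ≤ C → a * b ≤ C ^ 2 := by
    intro a b ha ha' hb hb'
    have : a * b ≤ C * C := mul_le_mul ha' hb' hb (ha.trans ha')
    linarith [sq C]
  have i1 : Integrable (fun x => g (T x) * g (T x)) ρ :=
    hint _ (hgT.mul hgT) (fun x => mul_nonneg (h0 _) (h0 _))
      (fun x => hCC _ _ (h0 _) (hC _) (h0 _) (hC _))
  have i2 : Integrable (fun x => g (T x) * g x) ρ :=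
    hint _ (hgT.mul hg) (fun x => mul_nonneg (h0 _) (h0 _))
      (fun x => hCC _ _ (h0 _) (hC _) (h0 _) (hC _))
  have i3 : Integrable (fun x => g x * g x) ρ :=
    hint _ (hg.mul hg) (fun x => mul_nonneg (h0 _) (h0 _))
      (fun x => hCC _ _ (h0 _) (hC _) (h0 _) (hC _))
  have e1 : ∫ x, g (T x) * g (T x) ∂ρ = ∫ x, g x * g x ∂ρ := by
    have h1 := integral_map (μ := ρ) hT.measurable.aemeasurable (f := fun x => g x * g x)
      (hg.mul hg).aestronglyMeasurable
    rw [hT.map_eq] at h1
    exact h1.symm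
  have hd : ∀ h : Tor → ℝ, ∫ x, h x ∂lam = ∫ x, g x * h x ∂ρ := by
    intro h
    rw [hlam, integral_withDensity_eq_integral_toReal_smul (by fun_prop)
      (Eventually.of_forall fun x => ENNReal.ofReal_lt_top)]
    refine integral_congr_ae (Eventually.of_forall fun x => ?_)
    simp only [ENNReal.toReal_ofReal (h0 x), smul_eq_mul]
  have e2 : ∫ x, g (T x) * g x ∂ρ = ∫ x, g x * g x ∂ρ := by
    rw [← hd g]
    have h1 := integral_map (μ := lam) hl.measurable.aemeasurable (f := g)
      hg.aestronglyMeasurable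
    rw [hl.map_eq] at h1
    rw [h1, hd]
    refine integral_congr_ae (Eventually.of_forall fun x => ?_)
    simp only [mul_comm]
  have e3 : ∫ x, (g (T x) - g x) ^ 2 ∂ρ = 0 := by
    have h1 : (fun x => (g (T x) - g x) ^ 2) = fun x => (g (T x) * g (T x) - g (T x) * g x) -
        (g (T x) * g x - g x * g x) := by
      funext x
      ring
    have i12 : Integrable (fun x => g (T x) * g (T x) - g (T x) * g x) ρ := i1.sub i2
    have i23 : Integrable (fun x => g (T x) * g x - g x * g x) ρ := i2.sub i3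
    rw [h1, integral_sub i12 i23, integral_sub i1 i2, integral_sub i2 i3, e1, e2]
    ring
  have h4 : Integrable (fun x => (g (T x) - g x) ^ 2) ρ := by
    have h1 : (fun x => (g (T x) - g x) ^ 2) = fun x => (g (T x) * g (T x) - g (T x) * g x) -
        (g (T x) * g x - g x * g x) := by
      funext x
      ring
    rw [h1]
    exact (i1.sub i2).sub (i2.sub i3)
  rw [integral_eq_zero_iff_of_nonneg (fun x => sq_nonneg _) h4] at e3
  filter_upwards [e3] with x hx
  have hx' : (g (T x) - g x) ^ 2 = 0 := hx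
  have := pow_eq_zero_iff (two_ne_zero) |>.1 hx'
  linarith

/-- bounded density -/
theorem exists_density {ρ lam : Measure Tor} [IsProbabilityMeasure ρ] [IsProbabilityMeasure lam]
    {c : ℝ≥0∞} (hc : c ≠ ⊤) (hle : lam ≤ c • ρ) :
    ∃ (C : ℝ) (g : Tor → ℝ), 1 ≤ C ∧ Measurable g ∧ (∀ x, 0 ≤ g x) ∧ (∀ x, g x ≤ C) ∧
      lam = ρ.withDensity (fun x => ENNReal.ofReal (g x)) := by
  have hac : lam ≪ ρ :=
    (Measure.absolutelyContinuous_of_le hle).trans Measure.smul_absolutelyContinuous
  haveI : lam.HaveLebesgueDecomposition ρ :=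
    Measure.haveLebesgueDecomposition_of_sigmaFinite lam ρ
  have hwd : ρ.withDensity (lam.rnDeriv ρ) = lam := Measure.withDensity_rnDeriv_eq _ _ hac
  have hle' : ∀ᵐ x ∂ρ, lam.rnDeriv ρ x ≤ c := by
    refine ae_le_of_forall_setLIntegral_le_of_sigmaFinite (Measure.measurable_rnDeriv _ _)
      fun s hs _ => ?_
    rw [← withDensity_apply _ hs, hwd, setLIntegral_const]
    exact hle s
  refine ⟨max 1 c.toReal, fun x => min (lam.rnDeriv ρ x).toReal (max 1 c.toReal),
    le_max_left _ _, ?_, fun x => le_min ENNReal.toReal_nonneg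
      (zero_le_one.trans (le_max_left _ _)), fun x => min_le_right _ _, ?_⟩
  · exact (Measure.measurable_rnDeriv _ _).ennreal_toReal.min measurable_const
  · conv_lhs => rw [← hwd]
    refine withDensity_congr_ae ?_
    filter_upwards [hle'] with x hx
    have h1 : (lam.rnDeriv ρ x).toReal ≤ max 1 c.toReal :=
      (ENNReal.toReal_mono hc hx).trans (le_max_right _ _)
    rw [min_eq_left h1, ENNReal.ofReal_toReal (ne_top_of_le_ne_top hc hx)]

/-- the product measure with the density `g (x + y)` -/
noncomputable def PP (μ ν : Measure Tor) (g : Tor → ℝ) : Measure (Tor × Tor) :=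
  (μ.prod ν).withDensity fun p => ENNReal.ofReal (g (p.1 + p.2))

theorem mp_PP {n : ℕ} {μ ν : Measure Tor} [IsProbabilityMeasure μ] [IsProbabilityMeasure ν]
    (hμ : MeasurePreserving (fun x : Tor => n • x) μ μ)
    (hν : MeasurePreserving (fun x : Tor => n • x) ν ν) {g : Tor → ℝ} (hg : Measurable g)
    (hinv : ∀ᵐ x ∂(conv μ ν), g (n • x) = g x) :
    (PP μ ν g).map (Prod.map (fun x : Tor => n • x) (fun x : Tor => n • x)) = PP μ ν g := by
  have hm : Measurable fun p : Tor × Tor => p.1 + p.2 := by fun_prop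
  have hTT := hμ.prod hν
  have h1 : ∀ᵐ p ∂(μ.prod ν), g (n • (p.1 + p.2)) = g (p.1 + p.2) :=
    ae_of_ae_map hm.aemeasurable hinv
  ext s hs
  have hF : Measurable fun p : Tor × Tor => ENNReal.ofReal (g (p.1 + p.2)) := by fun_prop
  rw [Measure.map_apply hTT.measurable hs, PP, withDensity_apply _ (hTT.measurable hs),
    withDensity_apply _ hs, ← lintegral_indicator (hTT.measurable hs), ← lintegral_indicator hs]
  conv_rhs => rw [← hTT.map_eq]
  rw [lintegral_map (hF.indicator hs) hTT.measurable]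
  refine lintegral_congr_ae ?_
  filter_upwards [h1] with p hp
  have h2 : (Prod.map (fun x : Tor => n • x) (fun x : Tor => n • x) p).1 +
      (Prod.map (fun x : Tor => n • x) (fun x : Tor => n • x) p).2 = n • (p.1 + p.2) := by
    simp [smul_add]
  by_cases hps : Prod.map (fun x : Tor => n • x) (fun x : Tor => n • x) p ∈ s
  · rw [Set.indicator_of_mem (show p ∈ _ ⁻¹' s from hps), Set.indicator_of_mem hps, h2, hp]
  · rw [Set.indicator_of_notMem (show p ∉ _ ⁻¹' s from hps), Set.indicator_of_notMem hps]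

/-- F2: the invariant density and the marginal. -/
theorem marg {μ ν lam : Measure Tor} [IsProbabilityMeasure μ] [IsProbabilityMeasure ν]
    [IsProbabilityMeasure lam] (hμ : Inv μ) (hν : Inv ν) (hl : Inv lam)
    (hext : ∀ (μ' : Measure Tor) (c : ℝ≥0∞), IsProbabilityMeasure μ' → Inv μ' → c ≠ ⊤ →
      μ' ≤ c • μ → μ' = μ)
    {c : ℝ≥0∞} (hc : c ≠ ⊤) (hle : lam ≤ c • conv μ ν) :
    ∃ (C : ℝ) (g : Tor → ℝ), 1 ≤ C ∧ Measurable g ∧ (∀ x, 0 ≤ g x) ∧ (∀ x, g x ≤ C) ∧
      lam = (conv μ ν).withDensity (fun x => ENNReal.ofReal (g x)) ∧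
      ((μ.prod ν).withDensity fun p => ENNReal.ofReal (g (p.1 + p.2))).map Prod.fst = μ := by
  obtain ⟨C, g, hC1, hg, h0, hC, hlam⟩ := exists_density hc hle
  refine ⟨C, g, hC1, hg, h0, hC, hlam, ?_⟩
  have hm : Measurable fun p : Tor × Tor => p.1 + p.2 := by fun_prop
  have hF : Measurable fun p : Tor × Tor => ENNReal.ofReal (g (p.1 + p.2)) := by fun_prop
  have h2 := inv_density (mp_conv hμ.two hν.two) hl.two hg h0 hC hlam
  have h3 := inv_density (mp_conv hμ.three hν.three) hl.three hg h0 hC hlam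
  have hP2 := mp_PP hμ.two hν.two hg h2
  have hP3 := mp_PP hμ.three hν.three hg h3
  have hprob0 : IsProbabilityMeasure (PP μ ν g) := by
    refine ⟨?_⟩
    have h4 : lam Set.univ = 1 := measure_univ
    rw [hlam, withDensity_apply _ MeasurableSet.univ, Measure.restrict_univ, conv,
      lintegral_map (by fun_prop) hm] at h4
    rw [PP, withDensity_apply _ MeasurableSet.univ, Measure.restrict_univ]
    exact h4
  have hprob : IsProbabilityMeasure ((PP μ ν g).map Prod.fst) :=
    Measure.isProbabilityMeasure_map measurable_fst.aemeasurable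
  have hinv : ∀ n : ℕ, Measurable (fun x : Tor => n • x) →
      (PP μ ν g).map (Prod.map (fun x : Tor => n • x) (fun x : Tor => n • x)) = PP μ ν g →
      MeasurePreserving (fun x : Tor => n • x) ((PP μ ν g).map Prod.fst)
        ((PP μ ν g).map Prod.fst) := by
    intro n hn hP
    refine ⟨hn, ?_⟩
    rw [Measure.map_map hn measurable_fst]
    conv_rhs => rw [← hP, Measure.map_map measurable_fst (hn.prodMap hn)]
    rfl
  refine hext _ (ENNReal.ofReal C) hprob ⟨hinv 2 hμ.two.measurable hP2,
    hinv 3 hμ.three.measurable hP3⟩ ENNReal.ofReal_ne_top ?_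
  have h5 : PP μ ν g ≤ ENNReal.ofReal C • μ.prod ν := by
    rw [← withDensity_const]
    exact withDensity_mono (Eventually.of_forall fun p => ENNReal.ofReal_le_ofReal (hC _))
  have h6 : (PP μ ν g).map Prod.fst ≤ (ENNReal.ofReal C • μ.prod ν).map Prod.fst :=
    Measure.map_mono h5 measurable_fst
  rw [Measure.map_smul, Measure.map_fst_prod, measure_univ, one_smul] at h6
  exact h6

end Helper26.CG
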